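import Pool.Agent.Helper98x.LapExt.Final

/-!
# MP_8604ae_co, Q1: the extreme points of the convex hull of Laplacian spectra

For every `n ≥ 1` the extreme points of `P_n = conv {λ(G) : G a graph on n vertices}` are exactly
the Laplacian spectra of the threshold graphs (conjugate degree sequences of threshold graphs),
`λ(G)` is an extreme point exactly when `G` is a threshold graph, and there are `2 ^ (n - 1)`
extreme points. Along the way (`facets` below): `P_n` is the set of nonincreasing vectors with last
coordinate `0` satisfying the two-parameter inequalities `S_k + S_l ≤ S_n + k (l + 1)`, `k ≤ l < n`.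
-/

set_option autoImplicit false

open Finset Polynomial

namespace Pool.Agent.Results.MP_8604ae_co.ExtremePoints

open Classical in
/-- The Laplacian eigenvalues of `G`, listed with multiplicity in nonincreasing order
(`lam G 0` is the largest one). -/
noncomputable def lam {n : ℕ} (G : SimpleGraph (Fin n)) : Fin n → ℝ := fun i =>
  (G.isHermitian_lapMatrix ℝ).eigenvalues₀ (Fin.cast (Fintype.card_fin n).symm i)

/-- The polytope `P_n`: the convex hull of the ordered Laplacian spectra of all graphs on
`n` vertices. -/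
noncomputable def P (n : ℕ) : Set (Fin n → ℝ) :=
  convexHull ℝ (Set.range fun G : SimpleGraph (Fin n) => lam G)

/-- `G` is a threshold graph: its vertices can be listed as `e 0, e 1, …` so that every vertex
`e j` is adjacent to all of the earlier vertices (if `D j` holds) or to none of them
(otherwise). -/
def IsThreshold {n : ℕ} (G : SimpleGraph (Fin n)) : Prop :=
  ∃ (e : Equiv.Perm (Fin n)) (D : Fin n → Prop),
    ∀ i j : Fin n, i < j → (G.Adj (e i) (e j) ↔ D j)

open Classical in
/-- The conjugate degree sequence: `dstar G k` (with `k` counted from `0`) is the number of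
vertices of degree at least `k + 1`. -/
noncomputable def dstar {n : ℕ} (G : SimpleGraph (Fin n)) : Fin n → ℝ := fun k =>
  ((univ.filter fun v => (k : ℕ) + 1 ≤ G.degree v).card : ℝ)

open Pool.Agent.Helper98x.LapExt

theorem creat_of_threshold {N : ℕ} {G : SimpleGraph (Fin (N + 1))} (h : IsThreshold G) :
    ∃ (e : Fin (N + 1) ≃ Fin (N + 1)) (D : ℕ → Bool), Creat N e D G := by
  classical
  obtain ⟨e, D, hD⟩ := h
  refine ⟨e, fun i => if h : i < N + 1 then decide (D ⟨i, h⟩) else false, fun i j hij => ?_⟩
  rw [hD i j hij]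
  have := j.isLt
  simp only [this, dite_true, decide_eq_true_eq, Fin.eta]

theorem threshold_of_creat {N : ℕ} {G : SimpleGraph (Fin (N + 1))}
    {e : Fin (N + 1) ≃ Fin (N + 1)} {D : ℕ → Bool} (h : Creat N e D G) : IsThreshold G :=
  ⟨e, fun j => D j = true, fun i j hij => h i j hij⟩

open Classical in
theorem lam_eq {n : ℕ} (G : SimpleGraph (Fin n)) : lam G = la G := rfl

theorem TS_eq (N : ℕ) :
    TS N = {x | ∃ G : SimpleGraph (Fin (N + 1)), IsThreshold G ∧ lam G = x} := by
  classical
  ext x
  constructor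
  · rintro ⟨G, i, e, D, hG, rfl⟩
    exact ⟨G, threshold_of_creat hG, by rw [lam_eq]; exact la_inst G _ _⟩
  · rintro ⟨G, hG, rfl⟩
    obtain ⟨e, D, h⟩ := creat_of_threshold hG
    exact ⟨G, inferInstance, e, D, h, (lam_eq G).symm⟩

theorem main (N : ℕ) : P (N + 1) = Poly N ∧ (P (N + 1)).extremePoints ℝ = TS N := by
  classical
  refine extreme_eq N _ ?_ ?_
  · rw [TS_eq]
    rintro _ ⟨G, _, rfl⟩
    exact ⟨G, rfl⟩
  · rintro _ ⟨G, rfl⟩
    exact la_mem G

theorem threshold_of_spectrum {N : ℕ} {G T : SimpleGraph (Fin (N + 1))} (hT : IsThreshold T)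
    (h : lam T = lam G) : IsThreshold G := by
  classical
  obtain ⟨e, D, hD⟩ := creat_of_threshold hT
  have h1 : (G.lapMatrix ℝ).charpoly = ∏ j : Fin (N + 1), (X - C (nu D N j)) := by
    rw [← charpoly_creat hD, la_charpoly, la_charpoly, ← lam_eq, ← lam_eq, h]
  obtain ⟨e', he'⟩ := cospec N D (Fin (N + 1)) G (Fintype.card_fin _) h1
  exact threshold_of_creat he'

theorem poly_eq (N : ℕ) : Poly N = {x : Fin (N + 1) → ℝ | Antitone x ∧
    (∀ i : Fin (N + 1), (i : ℕ) + 1 = N + 1 → x i = 0) ∧
    ∀ k l : ℕ, k ≤ l → l < N + 1 →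
      (∑ i : Fin (N + 1), if (i : ℕ) < k then x i else 0) +
        (∑ i : Fin (N + 1), if (i : ℕ) < l then x i else 0) ≤ (∑ i, x i) + k * (l + 1)} := by
  ext x
  have hlast : (∀ i : Fin (N + 1), (i : ℕ) + 1 = N + 1 → x i = 0) ↔ x (Fin.last N) = 0 := by
    constructor
    · intro h; exact h _ (by simp)
    · intro h i hi
      have : i = Fin.last N := by ext; simpa using hi
      rw [this, h]
  show Antitone x ∧ x (Fin.last N) = 0 ∧ Two N (ext0 x) ↔ Antitone x ∧ _ ∧ _
  rw [hlast]
  refine and_congr_right fun _ => and_congr_right fun h0 => ?_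
  have hs : ∑ i ∈ range N, ext0 x i = ∑ i, x i := by
    rw [← sum_ext0, sum_range_succ]
    have : ext0 x N = x (Fin.last N) := ext0_val x (Fin.last N)
    rw [this, h0, add_zero]
  constructor
  · intro h k l hkl hl
    have := h k l hkl (by omega)
    rwa [hs, sum_ext0_ite x k (by omega), sum_ext0_ite x l (by omega)] at this
  · intro h k l hkl hl
    rw [hs, sum_ext0_ite x k (by omega), sum_ext0_ite x l (by omega)]
    exact h k l hkl (by omega)

/-- inequality description of `P_n` -/
theorem facets (n : ℕ) (hn : 1 ≤ n) :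
    P n = {x : Fin n → ℝ | Antitone x ∧ (∀ i : Fin n, (i : ℕ) + 1 = n → x i = 0) ∧
      ∀ k l : ℕ, k ≤ l → l < n →
        (∑ i : Fin n, if (i : ℕ) < k then x i else 0) +
          (∑ i : Fin n, if (i : ℕ) < l then x i else 0) ≤ (∑ i, x i) + k * (l + 1)} := by
  obtain ⟨N, rfl⟩ : ∃ N, n = N + 1 := ⟨n - 1, by omega⟩
  rw [(main N).1, poly_eq]

open Classical in
/-- **The extreme points of the convex hull of Laplacian spectra.** Let `n ≥ 1`.
1. `lam G` lists the roots of the characteristic polynomial of the Laplacian in nonincreasing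
   order.
2. The extreme points of `P_n` are exactly the spectra of threshold graphs.
3. `lam G` is an extreme point of `P_n` iff `G` is a threshold graph.
4. For a threshold graph the spectrum is the conjugate degree sequence.
5. `P_n` has exactly `2 ^ (n - 1)` extreme points. -/
theorem result (n : ℕ) (hn : 1 ≤ n) :
    (∀ G : SimpleGraph (Fin n), Antitone (lam G) ∧
      (G.lapMatrix ℝ).charpoly = ∏ i, (X - C (lam G i))) ∧
    (P n).extremePoints ℝ = {x | ∃ G : SimpleGraph (Fin n), IsThreshold G ∧ lam G = x} ∧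
    (∀ G : SimpleGraph (Fin n), lam G ∈ (P n).extremePoints ℝ ↔ IsThreshold G) ∧
    (∀ G : SimpleGraph (Fin n), IsThreshold G → lam G = dstar G) ∧
    ((P n).extremePoints ℝ).ncard = 2 ^ (n - 1) := by
  obtain ⟨N, rfl⟩ : ∃ N, n = N + 1 := ⟨n - 1, by omega⟩
  obtain ⟨h1, h2⟩ := main N
  refine ⟨fun G => ⟨la_anti G, la_charpoly G⟩, ?_, ?_, ?_, ?_⟩
  · rw [h2, TS_eq]
  · intro G
    rw [h2, TS_eq]
    constructor
    · rintro ⟨T, hT, h⟩
      exact threshold_of_spectrum hT h
    · intro h
      exact ⟨G, h, rfl⟩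
  · intro G hG
    obtain ⟨e, D, hD⟩ := creat_of_threshold hG
    funext i
    rw [lam_eq, la_dst hD i]
    rfl
  · rw [h2, ncard_TS, Nat.add_sub_cancel]

end Pool.Agent.Results.MP_8604ae_co.ExtremePoints
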